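import Pool.Agent.Helper38.XF.Alg2
import Pool.Agent.Helper38.XF.Alg0
import Pool.Agent.Helper33.XG.PCS
import Pool.Agent.Helper67.XG.GEN
import Pool.Agent.Helper72.XG.ACL
import Pool.Agent.Helper70.XG.LCL

set_option autoImplicit false

/-!
# MP_db9079_lc: existentially definable functions over `F_p((t))` are piecewise algebraic in the
`p`-components of the arguments

Every element `x` of `K = F_p((t))` is a unique combination `∑ x_i ^ p * t ^ i`, `0 ≤ i < p`, of its
`p`-components `x_i`; iteration gives the components `x_l`, `l` a finite word in `0, ..., p - 1`. All
of them are existentially definable functions of `x`. Here it is shown, without any hypothesis, that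
up to algebraic functions these are all existentially definable functions. For every existential
formula (of the language of valued fields, with quantifiers only in the scope of an even number of
negations) there are finitely many polynomials `Q` in the components of the parameters, and one
further variable `Y`, with coefficients in `F_p(t)`, with the following property. If `y` is a
coordinate of a point of a countable set defined by the formula with parameters `v`, or of an isolated
point of a set defined by the formula, or of a value of the relation defined by it which is isolated
among the values nearby, then `Q(components of v, y) = 0` for one of the polynomials `Q` such that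
`Q(components of v, Y)` is not the zero polynomial. In particular, if the formula defines, with all
variables except one regarded as arguments, a partial function of several variables, then its values
are zeros of these polynomials. So over `F_p((t))` the existential algebraic closure of a set which
contains `t` (the union of the finite sets definable by existential formulas with parameters in it)
is the relative algebraic closure of the field generated by the iterated components of its elements.

This is an analogue, for existential formulas, of the theorem of van den Dries that `Q_p` is
algebraically bounded. For all formulas it is not known: it would imply that `K` is `LFTame`, and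
this is known (by results of the library) only if the theory of `K` is decidable.

The main step is the theorem on algebraic sets (part (4)) over every field `K` of characteristic `p`
with a `p`-basis `{t}` and a valuation ring for which simple zeros of polynomials depend continuously
on the coefficients.

Proof. Otherwise there are parameters `v` and a point `w` over an ultrapower `L` of `K` such that the
coordinate `w b` is constant near `w`, but does not belong to the relative algebraic closure `k` of the
field generated by `F_p(t)` and the iterated components of `v`. Then `k` contains the `p`-components of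
its elements, and is relatively algebraically closed in `L`, so `L` is a separable extension of `k`, and
the point `w` can be moved as in the result `ExistentialFormulas`, which is a contradiction.
-/

namespace Pool.Agent.Results.MP_db9079_lc.AlgebraicValues

open Pool.Agent.Y924.EL Pool.Agent.Helper38.XF
open Pool.Agent.Results.MP_db9079_lc.UniformFiniteness (ValRing Dfn)
open Pool.Agent.Results.MP_db9079_lc.LocallyFiniteValues (DRel DSet)

theorem t_ALG2 : St_ALG2 :=
  alg2 (Pool.Agent.Helper39.XF.MOVE.main
      (Pool.Agent.Helper79.XF.SEP.main Pool.Agent.Helper88.XF.POW.main)
      (Pool.Agent.Helper90.XF.ONE.main Pool.Agent.Helper78.XF.RAT.main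
        Pool.Agent.Helper67.XF.PRIM.main Pool.Agent.Helper85.XF.CONT.main
        Pool.Agent.Helper15.XF.BAD.main Pool.Agent.Helper15.XF.MANY.main))
    Pool.Agent.Helper6.XF.ULT.main (Pool.Agent.Helper70.XG.LCL.main Pool.Agent.Helper88.XF.POW.main)
    Pool.Agent.Helper67.XG.GEN.main Pool.Agent.Helper72.XG.ACL.main
    Pool.Agent.Helper33.XG.PCS.main

/-- (1) Relations: the values which are isolated among the values nearby.

(2) The elements of countable definable sets in `K ^ n`.

(3) One variable, in particular the values of definable functions: the formula defines a countable
set (for a function, a set with one element) in the variable `x_0`; the arguments of the function are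
among the parameters.

(4) The main step, for all fields `K` of characteristic `p` with a `p`-basis `{t}` and a valuation
ring `O` with the property `Hens`, and countable subfields `k` which contain `t` and the
`p`-components of their elements: the values of a coordinate on an algebraic set, given by equations
with coefficients in `k` and with parameters `v`, near which this coordinate is constant.

(5) The field `F_p((t))` and its subfield `F_p(t)` satisfy the hypotheses of (4). -/
theorem result (p : ℕ) [Fact p.Prime] :
    (∀ φ : Fm, Pol true φ → ∀ n m : ℕ,
      ∃ Qs : Finset (MvPolynomial (Option (ℕ × List (Fin p))) (Ft p)),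
        ∀ v : ℕ → LaurentSeries (ZMod p), ∀ y ∈ LIV p (DRel p (ValRing p) φ n m v), ∀ j,
          AlgBy Qs v (y j)) ∧
    (∀ φ : Fm, Pol true φ → ∀ n : ℕ,
      ∃ Qs : Finset (MvPolynomial (Option (ℕ × List (Fin p))) (Ft p)),
        ∀ v : ℕ → LaurentSeries (ZMod p), (DSet p (ValRing p) φ n v).Countable →
          ∀ y ∈ DSet p (ValRing p) φ n v, ∀ j, AlgBy Qs v (y j)) ∧
    (∀ φ : Fm, Pol true φ →
      ∃ Qs : Finset (MvPolynomial (Option (ℕ × List (Fin p))) (Ft p)),
        ∀ (v : ℕ → LaurentSeries (ZMod p)) (y : LaurentSeries (ZMod p)),
          y ∈ Dfn p (ValRing p) φ v → (Dfn p (ValRing p) φ v).Countable → AlgBy Qs v y) ∧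
    (∀ (K : Type) [Field K] [CharP K p] [Infinite K] (O : ValuationSubring K) (t : K)
      (h : PBas p K t), Hens O → ∀ k : Subfield K, LamClosed p t k → (k : Set K).Countable →
      ∀ (ι κ : Type) [Finite ι] [Finite κ] (E : Finset (MvPolynomial (ι ⊕ κ) K)) (b : κ),
        (∀ F ∈ E, ∀ m, F.coeff m ∈ k) →
        ∃ Qs : Finset (MvPolynomial (Option (ι × List (Fin p))) k), ∀ v : ι → K,
          ∀ a ∈ LV O E v b, ∃ Q ∈ Qs, (∃ a' : K, MvPolynomial.aeval (asg h v a') Q ≠ 0) ∧
            MvPolynomial.aeval (asg h v a) Q = 0) ∧
    (Hens (VO p) ∧ PBas p (LaurentSeries (ZMod p)) (HahnSeries.single 1 1) ∧
      LamClosed p (HahnSeries.single 1 1) (Ft p) ∧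
      (Ft p : Set (LaurentSeries (ZMod p))).Countable) := by
  refine ⟨fun φ hφ n m => alg_liv t_ALG2 Pool.Agent.Helper67.XG.GEN.main φ hφ n m,
    fun φ hφ n => alg_cou t_ALG2 Pool.Agent.Helper67.XG.GEN.main φ hφ n,
    fun φ hφ => alg_fun t_ALG2 Pool.Agent.Helper67.XG.GEN.main φ hφ, ?_, ?_, ?_, ?_, ?_⟩
  · intro K _ _ _ O t h hO k hk1 hk2 ι κ _ _ E b hE
    exact t_ALG2 p K O t h hO k hk1 hk2 ι κ E b hE
  · exact Pool.Agent.Helper89.XF.HEN.main p (VO p) (mem_VO p)
  · exact Pool.Agent.Helper68.XF.main p
  · exact ft_lam p Pool.Agent.Helper67.XG.GEN.main
  · exact ft_countable p

end Pool.Agent.Results.MP_db9079_lc.AlgebraicValues
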