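import Pool.Agent.Helper38.EQ.Cnt

set_option autoImplicit false

/-!
# MP_db9079_lc: rationality of Poincaré series implies that `F_p((t))` is uniformly locally finite

Write `K` for the field `F_p((t))`, with the valuation or with any other unary predicate `P`. For the
field of the `p`-adic numbers the Poincaré series of every definable subset `X` of the valuation ring,
whose coefficients are the numbers of residue classes modulo `p ^ n` which meet `X`, is rational, and
its Haar measure is rational (Denef). For `F_p((t))` this is open. Here it is shown that rationality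
of the Poincaré series, for all subsets of `F_p[[t]]` definable with parameters, would imply that
`(K, P)` is `LFTame` (the sets of the locally finite values of the definable relations are uniformly
finite; equivalently, there is no infinite discrete set which is definable with parameters; by
results of the library this is also a consequence of the decidability of the theory of `(K, P)`).

More precisely, if `(K, P)` is not `LFTame`, then ALL sequences `a 0, a 1, ...` with `a 0 = 1` and
`a n ≤ a (n + 1) ≤ p * a n` are the counting functions of definable closed subsets of `F_p[[t]]`, and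
ALL numbers in the interval `(0, 1]` are densities (Haar measures) of such sets. So `(K, P)` is
`LFTame` as soon as one of these sequences is not the counting function of a definable set. The
conclusions hold unconditionally if `P` is an infinite discrete set, an infinite scattered set or an
infinite countable closed set.

Proof. Construct sets `A n` of `a n` polynomials of degree less than `n` such that `A (n + 1)` contains
`A n` and consists of polynomials `f + c t ^ n` with `f` in `A n`. The set of all power series whose
truncations are in the sets `A n` is closed, and its truncations modulo `t ^ n` are exactly the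
elements of `A n`. By the library theorem `ProjectiveSets` all closed sets are definable if `(K, P)` is
not `LFTame`. If `a n` is one plus the number of factorials below `n`, then the series is not
rational: otherwise the product of a nonzero polynomial and the series `∑ t ^ (n !)` would be a
polynomial.
-/

namespace Pool.Agent.Results.MP_db9079_lc.CountingFunctions

open Pool.Agent.Y924.EL Pool.Agent.Helper38.EQ
open Pool.Agent.Results.MP_db9079_lc.UniformFiniteness (ValRing Scattered Discr ClosedSet Dfn)
open Pool.Agent.Results.MP_db9079_lc.LocallyFiniteValues (LFTame)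
open Filter Topology

variable (p : ℕ) [Fact p.Prime]

/-- the number of the residue classes modulo `t ^ n` of the power series which belong to `D` -/
noncomputable def count (D : Set (LaurentSeries (ZMod p))) (n : ℕ) : ℕ :=
  (PowerSeries.trunc n ''
    {f | algebraMap (PowerSeries (ZMod p)) (LaurentSeries (ZMod p)) f ∈ D}).ncard

/-- The set `D` is a closed subset of `F_p[[t]]` which is definable with parameters in the field
`F_p((t))` with the unary predicate `P`. -/
def DefinableClosed (P D : Set (LaurentSeries (ZMod p))) : Prop :=
  (∃ (φ : Fm) (w : ℕ → LaurentSeries (ZMod p)), Dfn p P φ w = D) ∧ D ⊆ ValRing p ∧ ClosedSet p D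

/-- All possible counting functions and all densities in the interval `(0, 1]` occur for closed
definable subsets of `F_p[[t]]`. -/
def Everything (P : Set (LaurentSeries (ZMod p))) : Prop :=
  (∀ a, Admissible p a → ∃ D, DefinableClosed p P D ∧ ∀ n, count p D n = a n) ∧
    ∀ r : ℝ, 0 < r → r ≤ 1 → ∃ D, DefinableClosed p P D ∧
      Tendsto (fun n => (count p D n : ℝ) / (p : ℝ) ^ n) atTop (𝓝 r)

variable {p}

theorem exists_set {P : Set (LaurentSeries (ZMod p))}
    (h : Pool.Agent.Results.MP_db9079_lc.ProjectiveSets.AllProj p P) {a : ℕ → ℕ}
    (ha : Admissible p a) : ∃ D, DefinableClosed p P D ∧ ∀ n, count p D n = a n := by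
  obtain ⟨A, h1, h2, h3, h4⟩ := exists_levels ha
  have hcl := closed_branches A
  obtain ⟨φ, w, hw⟩ := h 1 _ (Pool.Agent.Helper14K9.PJ.Proj.closed _ hcl)
  have hD : Dfn p P φ w = {x | ∃ f ∈ branches A,
      algebraMap (PowerSeries (ZMod p)) (LaurentSeries (ZMod p)) f = x} := by
    rw [Pool.Agent.Results.MP_db9079_lc.ProjectiveSets.dset_dfn, hw]
    rfl
  have hinj : Function.Injective
      (algebraMap (PowerSeries (ZMod p)) (LaurentSeries (ZMod p))) := by
    rw [LaurentSeries.coe_algebraMap]
    exact HahnSeries.ofPowerSeries_injective
  refine ⟨_, ⟨⟨φ, w, hD⟩, ?_, ?_⟩, fun n => ?_⟩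
  · rintro x ⟨f, -, rfl⟩
    exact ⟨f, rfl⟩
  · intro x hx
    obtain ⟨N, hN⟩ := hcl (fun _ => x) hx
    refine ⟨HahnSeries.single N 1, HahnSeries.single_ne_zero one_ne_zero, ?_⟩
    rintro y hy ⟨z, ⟨g, rfl⟩, hz⟩
    refine hN (fun _ => y) hy fun _ m hm => ?_
    rw [← hz, add_sub_cancel_left]
    have h5 : m = (m - N) + N := by ring
    rw [h5, HahnSeries.coeff_single_mul_add, LaurentSeries.coe_algebraMap,
      PowerSeries.coeff_coe, if_pos (by omega), mul_zero]
  · have h5 : {f | algebraMap (PowerSeries (ZMod p)) (LaurentSeries (ZMod p)) f ∈
        {x | ∃ f ∈ branches A, algebraMap (PowerSeries (ZMod p)) (LaurentSeries (ZMod p)) f = x}} =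
        branches A := by
      ext f
      constructor
      · rintro ⟨g, hg, hgf⟩
        rwa [← hinj hgf]
      · intro hf
        exact ⟨f, hf, rfl⟩
    rw [count, h5, trunc_branches h2 h3 h4 n, Set.ncard_coe_finset, h1]

theorem everything {P : Set (LaurentSeries (ZMod p))}
    (h : Pool.Agent.Results.MP_db9079_lc.ProjectiveSets.AllProj p P) : Everything p P := by
  have hp : 2 ≤ p := (Fact.out : p.Prime).two_le
  refine ⟨fun a ha => exists_set h ha, fun r h0 h1 => ?_⟩
  obtain ⟨D, hD, hc⟩ := exists_set h (density_admissible hp h0 h1)
  refine ⟨D, hD, ?_⟩
  simp only [hc]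
  exact density_tendsto hp h0

variable (p)

/-- (1) If `F_p((t))` with the unary predicate `P` (for example, the valuation ring) is not `LFTame`,
then all possible counting functions and densities occur for closed definable subsets of `F_p[[t]]`.

(2) So if some possible sequence does not occur, or if some number in the interval `(0, 1]` does not
occur as a density, then `F_p((t))` with the unary predicate `P` is `LFTame`.

(3) In particular, if the Poincaré series of all closed definable subsets of `F_p[[t]]` are rational,
then `F_p((t))` with the unary predicate `P` is `LFTame`.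

(4) If `P` is an infinite discrete set, an infinite scattered set or an infinite countable closed set,
then all possible counting functions and densities occur, and the Poincaré series of some closed
definable subset of `F_p[[t]]` is not rational. -/
theorem result :
    (∀ P : Set (LaurentSeries (ZMod p)), ¬ LFTame p P → Everything p P) ∧
    (∀ P : Set (LaurentSeries (ZMod p)),
      ((∃ a, Admissible p a ∧ ¬ ∃ D, DefinableClosed p P D ∧ ∀ n, count p D n = a n) ∨
        ∃ r : ℝ, 0 < r ∧ r ≤ 1 ∧ ¬ ∃ D, DefinableClosed p P D ∧
          Tendsto (fun n => (count p D n : ℝ) / (p : ℝ) ^ n) atTop (𝓝 r)) → LFTame p P) ∧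
    (∀ P : Set (LaurentSeries (ZMod p)),
      (∀ D, DefinableClosed p P D → RationalSeries (count p D)) → LFTame p P) ∧
    ∀ P : Set (LaurentSeries (ZMod p)), P.Infinite →
      (Scattered p P ∨ Discr p P ∨ (P.Countable ∧ ClosedSet p P)) →
        Everything p P ∧ ∃ D, DefinableClosed p P D ∧ ¬ RationalSeries (count p D) := by
  have hres := Pool.Agent.Results.MP_db9079_lc.ProjectiveSets.result p
  have hp : 2 ≤ p := (Fact.out : p.Prime).two_le
  have irr : ∀ P : Set (LaurentSeries (ZMod p)), Everything p P →
      ∃ D, DefinableClosed p P D ∧ ¬ RationalSeries (count p D) := by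
    intro P hP
    obtain ⟨D, hD, hc⟩ := hP.1 _ (facCount_admissible hp)
    refine ⟨D, hD, ?_⟩
    rw [show count p D = facCount from funext hc]
    exact facCount_irrational
  have one : ∀ P : Set (LaurentSeries (ZMod p)), ¬ LFTame p P → Everything p P :=
    fun P hT => everything ((hres.1 P).2 hT)
  refine ⟨one, fun P h => ?_, fun P h => ?_, fun P hP hd => ?_⟩
  · by_contra hT
    have h1 := one P hT
    rcases h with ⟨a, ha, h2⟩ | ⟨r, h0, h3, h2⟩
    · exact h2 (h1.1 a ha)
    · exact h2 (h1.2 r h0 h3)
  · by_contra hT
    obtain ⟨D, hD, h1⟩ := irr P (one P hT)
    exact h1 (h D hD)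
  · have h1 := everything (hres.2.2.1 P hP hd)
    exact ⟨h1, irr P h1⟩

end Pool.Agent.Results.MP_db9079_lc.CountingFunctions
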