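import Pool.Agent.Helper38.XF.Fin4

set_option autoImplicit false

/-!
# MP_db9079_lc: uniform finiteness for existential formulas over `F_p((t))`

By results of the library, if the theory of the valued field `K = F_p((t))` is decidable, then `K` is
`LFTame`: for every formula there is a bound for the number of the locally finite values of the
relations which are definable by it with parameters (in particular for the number of the isolated
points of the definable sets, and of the values of locally constant definable functions). Here this
is proved, without any hypothesis, for all existential formulas of the language of valued fields: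

* the isolated points of existentially definable subsets of `K ^ n`, and more generally the values of
  existentially definable relations which are isolated among the values at the points nearby, are
  finite in number, with a bound which depends only on the formula;
* countable existentially definable subsets of `K ^ n`, and countable images of existentially
  definable relations, are finite, with a bound which depends only on the formula;
* so `K` is `LFTame` if all formulas are equivalent to existential ones.

An existential formula is a formula (of the language with `1`, `+`, `·`, `=` and the valuation ring)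
whose quantifiers `∃` are in the scope of an even number of negations; parameters are allowed.

The main step is a theorem on algebraic sets over every field `K` of characteristic `p` with a
`p`-basis `{t}` and a valuation ring for which simple zeros of polynomials depend continuously on the
coefficients (`K` is henselian): the values of a coordinate at the points of an algebraic set near
which this coordinate is constant are uniformly finite in number, for all values of the parameters in
the equations.

Proof of the main step. Otherwise there are, in an ultrapower `L` of `K`, a point `w` and parameters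
`v` such that the coordinate `w b` is constant near `w`, and does not belong to a given countable
subfield; let this be a subfield `k` which contains the parameters, which contains the `p`-components
of its elements with respect to `t`, and is relatively algebraically closed. Then `L` is a separable
extension of `k`, so the coordinates of `w` are separable over `k (s)` for a separating
transcendence basis `s`, and one may enlarge `k` such that `s` is one element and `w b` is not in `k`.
By Hensel's lemma the embedding of `k (s, w)` in `L` can be deformed: `s` goes to an element nearby.
This moves `w` to a point of the same algebraic set nearby, and changes `w b`. For the assertion on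
countable sets one needs the theorem of Baire in addition.
-/

namespace Pool.Agent.Results.MP_db9079_lc.ExistentialFormulas

open Pool.Agent.Y924.EL Pool.Agent.Helper38.XF
open Pool.Agent.Results.MP_db9079_lc.UniformFiniteness (ValRing)
open Pool.Agent.Results.MP_db9079_lc.LocallyFiniteValues (DRel DSet LFV LFTame Iso Img LocConst
  img_subset)

/-- (1) For every existential formula the sets of the values which are isolated among the values
nearby (`LIV`) of the relations defined by it with parameters are uniformly finite.

(2) The same for the locally finite values (`LFV`, the values which occur in `LFTame`), for the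
isolated points of the definable sets, and for the images of relations with finite, locally constant
sets of values.

(3) Countable sets defined by an existential formula with parameters, and countable images of
relations defined by it, are uniformly finite.

(4) If every formula is equivalent to an existential one (with parameters), then the valued field
`F_p((t))` is `LFTame`.

(5) The main step, for all fields `K` of characteristic `p` with a `p`-basis `{t}` and a valuation
ring `O` with the property `Hens`: the set `LV O E v b` of the values of the coordinate `b` at the
points near which it is constant is uniformly finite; `E` is a finite set of equations and `v` are the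
parameters. The field `F_p((t))` with the valuation ring `F_p[[t]]` has these properties. -/
theorem result (p : ℕ) [Fact p.Prime] :
    (∀ φ : Fm, Pol true φ → ∀ n m : ℕ, ∃ N : ℕ, ∀ v : ℕ → LaurentSeries (ZMod p),
      (LIV p (DRel p (ValRing p) φ n m v)).Finite ∧
        (LIV p (DRel p (ValRing p) φ n m v)).ncard ≤ N) ∧
    (∀ φ : Fm, Pol true φ → ∀ n m : ℕ, ∃ N : ℕ, ∀ v : ℕ → LaurentSeries (ZMod p),
      ((LFV p (DRel p (ValRing p) φ n m v)).Finite ∧
        (LFV p (DRel p (ValRing p) φ n m v)).ncard ≤ N) ∧
      ((Iso p (DSet p (ValRing p) φ n v)).Finite ∧
        (Iso p (DSet p (ValRing p) φ n v)).ncard ≤ N) ∧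
      (LocConst p (DRel p (ValRing p) φ n m v) → (Img p (DRel p (ValRing p) φ n m v)).Finite ∧
        (Img p (DRel p (ValRing p) φ n m v)).ncard ≤ N)) ∧
    (∀ φ : Fm, Pol true φ → ∀ n m : ℕ, ∃ N : ℕ, ∀ v : ℕ → LaurentSeries (ZMod p),
      ((DSet p (ValRing p) φ n v).Countable → (DSet p (ValRing p) φ n v).Finite ∧
        (DSet p (ValRing p) φ n v).ncard ≤ N) ∧
      ((Img p (DRel p (ValRing p) φ n m v)).Countable →
        (Img p (DRel p (ValRing p) φ n m v)).Finite ∧
          (Img p (DRel p (ValRing p) φ n m v)).ncard ≤ N)) ∧
    ((∀ (φ : Fm) (n m : ℕ), ∃ ψ : Fm, Pol true ψ ∧ ∀ v : ℕ → LaurentSeries (ZMod p),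
      ∃ w : ℕ → LaurentSeries (ZMod p),
        DRel p (ValRing p) φ n m v = DRel p (ValRing p) ψ n m w) → LFTame p (ValRing p)) ∧
    ((∀ (K : Type) [Field K] [CharP K p] [Infinite K] (O : ValuationSubring K) (t : K), Hens O →
      PBas p K t → ∀ (ι κ : Type) [Finite ι] [Finite κ] (E : Finset (MvPolynomial (ι ⊕ κ) K))
        (b : κ), ∃ M : ℕ, ∀ v : ι → K, (LV O E v b).Finite ∧ (LV O E v b).ncard ≤ M) ∧
      Hens (VO p) ∧ PBas p (LaurentSeries (ZMod p)) (HahnSeries.single 1 1)) := by
  have h1 := fun (φ : Fm) (hφ : Pol true φ) (n m : ℕ) => liv p φ hφ n m
  refine ⟨h1, fun φ hφ n m => ?_, fun φ hφ n m => ?_, fun h φ n m => ?_, ?_, ?_, ?_⟩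
  · obtain ⟨N, hN⟩ := h1 φ hφ n m
    obtain ⟨N', hN'⟩ := h1 φ hφ 0 n
    refine ⟨max N N', fun v => ?_⟩
    have e1 : (LFV p (DRel p (ValRing p) φ n m v)).Finite ∧
        (LFV p (DRel p (ValRing p) φ n m v)).ncard ≤ max N N' :=
      ⟨(hN v).1.subset (lfv_subset _), (Set.ncard_le_ncard (lfv_subset _) (hN v).1).trans
        ((hN v).2.trans (le_max_left _ _))⟩
    refine ⟨e1, ⟨(hN' v).1.subset (iso_subset _ _ _ _),
      (Set.ncard_le_ncard (iso_subset _ _ _ _) (hN' v).1).trans
        ((hN' v).2.trans (le_max_right _ _))⟩, fun hl => ?_⟩
    exact ⟨e1.1.subset (img_subset _ hl), (Set.ncard_le_ncard (img_subset _ hl) e1.1).trans e1.2⟩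
  · obtain ⟨N, hN⟩ := cou p φ hφ n
    obtain ⟨ψ, hψ, himg⟩ := img_dset (ValRing p) φ n m
    obtain ⟨N', hN'⟩ := cou p ψ (hψ hφ) m
    refine ⟨max N N', fun v => ⟨fun hc => ?_, fun hc => ?_⟩⟩
    · exact ⟨(hN v hc).1, (hN v hc).2.trans (le_max_left _ _)⟩
    · rw [← himg v] at hc ⊢
      exact ⟨(hN' v hc).1, (hN' v hc).2.trans (le_max_right _ _)⟩
  · obtain ⟨ψ, hψ, hv⟩ := h φ n m
    obtain ⟨N, hN⟩ := h1 ψ hψ n m
    refine ⟨N, fun v => ?_⟩
    obtain ⟨w, hw⟩ := hv v
    rw [hw]
    exact ⟨(hN w).1.subset (lfv_subset _), (Set.ncard_le_ncard (lfv_subset _) (hN w).1).trans
      (hN w).2⟩
  · intro K _ _ _ O t hO ht ι κ _ _ E b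
    exact t_MAIN p K O t hO ht ι κ E b
  · exact Pool.Agent.Helper89.XF.HEN.main p (VO p) (mem_VO p)
  · exact Pool.Agent.Helper68.XF.main p

end Pool.Agent.Results.MP_db9079_lc.ExistentialFormulas
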