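import Pool.Agent.Helper38.EQ.Ser

set_option autoImplicit false

/-!
# MP_db9079_lc: if `F_p((t))` is not uniformly locally finite, then it is not elementarily equivalent
# to the henselisation of `F_p(t)`

Write `K` for the field `F_p((t))`, with the valuation or with any other unary predicate `P`. If the
theory of `(K, P)` is decidable, then by results of the library `(K, P)` is `LFTame` (the sets of the
locally finite values of the definable relations are uniformly finite; equivalently, there is no
infinite discrete set which is definable with parameters), and if `(K, P)` is not `LFTame`, then all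
projective sets are definable with parameters.

Here the subfields `L` of `K` containing `t`, with a unary predicate `Q`, are considered which satisfy
the same sentences with the constant `t` as `(K, P)`. It is expected that the henselisation of `F_p(t)`,
i.e. the relative algebraic closure of `F_p(t)` in `K`, with the induced valuation, is an example for
the valued field `K`. We show that this implies that `K` is `LFTame`. More generally, if `(K, P)` is
not `LFTame`, then all these subfields `L` contain the transcendental series `∑ t ^ (n !)`. This is
unconditional for many `P`: no subfield of the henselisation of `F_p(t)`, with any unary predicate, is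
elementarily equivalent to `(K, P)`, with the constant `t`, if `P` is an infinite discrete set, for
example the cross section `t ^ ℤ`, an infinite scattered set, or an infinite countable closed set.
(For the field of the `p`-adic numbers and the cross section `p ^ ℤ` the relative algebraic closure of
the field of the rational numbers is elementarily equivalent.)

Proof. The set of all `(t ^ (-n), t ^ (n !), t ^ (-j), t ^ (j n !), ∑_{k ≤ n} t ^ (k !))` is a closed
discrete subset of `K ^ 5`, so if `(K, P)` is not `LFTame`, then it is definable with parameters, by a
formula `φ`. It satisfies some clauses which express the recursion of the factorials: from `(x, y, u t,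
z, s)` one gets `(x, y, u, z y, s)`, and from `(u t, y, u, z, s)` one gets `(u, z, 1, 1, s + z)`, and for
the series `c` the difference `c - s` belongs to `z O` for all elements `(u t, y, u, z, s)`; here the
valuation ring `O` is the set of the `x` such that `1 + t x ^ (p + 1)` is a power with exponent
`p + 1`. So `(K, P)` satisfies the sentence with the constant `t` which says that there are
parameters of `φ` and an element `c` such that the clauses are true. As `(L, Q)` satisfies this
sentence too, `L` contains a `c` and a relation, defined in `(L, Q)` by `φ`, satisfying the clauses. By
induction this relation contains all the tuples above (they consist of elements of `L`), and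
therefore `c - ∑_{k ≤ n} t ^ (k !)` belongs to `t ^ ((n + 1) !) O` for all `n`, so `c` is the series.
The series is transcendental over `F_p(t)`, because it has too large gaps.
-/

namespace Pool.Agent.Results.MP_db9079_lc.OmittedSeries

open Pool.Agent.Y924.EL
open Pool.Agent.Results.MP_db9079_lc.UniformFiniteness (ValRing Scattered Discr ClosedSet)
open Pool.Agent.Results.MP_db9079_lc.LocallyFiniteValues (LFTame)

variable (p : ℕ) [Fact p.Prime]

/-- the element `t` of `F_p((t))` -/
noncomputable def t : LaurentSeries (ZMod p) := HahnSeries.single 1 1

open Classical in
/-- the series `t + t ^ 2 + t ^ 6 + t ^ 24 + ...`: the coefficient of `t ^ m` is one if `m = k !` for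
some `k ≥ 1`, and zero otherwise -/
noncomputable def factorialSeries : LaurentSeries (ZMod p) :=
  algebraMap (PowerSeries (ZMod p)) (LaurentSeries (ZMod p))
    (PowerSeries.mk fun m => if ∃ k : ℕ, (k + 1).factorial = m then 1 else 0)

variable {p}

/-- the subfield `L` of `F_p((t))` with the unary predicate `Q` satisfies the same sentences with the
constant `t` as `F_p((t))` with the unary predicate `P`; (the sentences with the constant `t` are the
formulas in which the value `t` is given to all free variables) -/
def SameSentences (P : Set (LaurentSeries (ZMod p))) (L : Subfield (LaurentSeries (ZMod p)))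
    (h : t p ∈ L) (Q : Set L) : Prop :=
  ∀ φ : Fm, Sat Q φ (fun _ => ⟨t p, h⟩) ↔ Sat P φ fun _ => t p

variable (p)

/-- the relative algebraic closure of `F_p(t)` in `F_p((t))` (the henselisation of `F_p(t)`): the
elements which are algebraic over `F_p[t]` -/
noncomputable def algebraicSeries : Subfield (LaurentSeries (ZMod p)) where
  carrier := {x | IsAlgebraic (Polynomial (ZMod p)) x}
  mul_mem' h h' := h.mul h'
  one_mem' := isAlgebraic_one
  add_mem' h h' := h.add h'
  zero_mem' := isAlgebraic_zero
  neg_mem' h := h.neg
  inv_mem' _ h := h.inv

theorem t_mem : t p ∈ algebraicSeries p := by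
  have h : t p = algebraMap (Polynomial (ZMod p)) (LaurentSeries (ZMod p)) Polynomial.X := by
    change t p = algebraMap (PowerSeries (ZMod p)) (LaurentSeries (ZMod p))
      ((Polynomial.X : Polynomial (ZMod p)) : PowerSeries (ZMod p))
    rw [Polynomial.coe_X, LaurentSeries.coe_algebraMap, HahnSeries.ofPowerSeries_X]
    rfl
  rw [h]
  exact isAlgebraic_algebraMap _

theorem factorialSeries_not_mem : factorialSeries p ∉ algebraicSeries p := by
  rintro ⟨f, hf, h0⟩
  refine Pool.Agent.Helper38.EQ.fac_transcendental f hf ?_
  have hinj : Function.Injective
      (algebraMap (PowerSeries (ZMod p)) (LaurentSeries (ZMod p))) := by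
    rw [LaurentSeries.coe_algebraMap]
    exact HahnSeries.ofPowerSeries_injective
  apply hinj
  rw [map_zero, Polynomial.hom_eval₂]
  exact h0

/-- (1) If `F_p((t))` with the unary predicate `P` (for example, the valuation ring) is not `LFTame`, then
every subfield `L` which contains `t` and satisfies, with some unary predicate `Q`, the same sentences
with the constant `t`, contains the series `∑ t ^ (n !)`, `n ≥ 1`.

(2) This series is not algebraic over `F_p[t]`.

(3) So if the relative algebraic closure of `F_p(t)`, or a subfield of it, with some unary predicate
(for example, with the induced valuation ring) satisfies the same sentences with the constant `t` as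
`F_p((t))` with the predicate `P` (for example, the valuation ring), then `F_p((t))` with the predicate
`P` is `LFTame`.

(4) If `P` is an infinite discrete set, an infinite scattered set, or an infinite countable closed
set, then all the subfields `L` of (1) contain the series, and no subfield of the relative algebraic
closure of `F_p(t)`, with any unary predicate, satisfies the same sentences with the constant `t` as
`F_p((t))` with the predicate `P`. -/
theorem result :
    (∀ P : Set (LaurentSeries (ZMod p)), ¬ LFTame p P → ∀ (L : Subfield (LaurentSeries (ZMod p)))
      (h : t p ∈ L) (Q : Set L), SameSentences P L h Q → factorialSeries p ∈ L) ∧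
    (t p ∈ algebraicSeries p ∧ factorialSeries p ∉ algebraicSeries p) ∧
    (∀ (P : Set (LaurentSeries (ZMod p))) (L : Subfield (LaurentSeries (ZMod p)))
      (h : t p ∈ L) (Q : Set L), L ≤ algebraicSeries p → SameSentences P L h Q → LFTame p P) ∧
    ∀ P : Set (LaurentSeries (ZMod p)), P.Infinite →
      (Scattered p P ∨ Discr p P ∨ (P.Countable ∧ ClosedSet p P)) →
        (∀ (L : Subfield (LaurentSeries (ZMod p))) (h : t p ∈ L) (Q : Set L),
          SameSentences P L h Q → factorialSeries p ∈ L) ∧
        ∀ (L : Subfield (LaurentSeries (ZMod p))) (h : t p ∈ L) (Q : Set L),
          L ≤ algebraicSeries p → ¬ SameSentences P L h Q := by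
  have zero : ∀ P : Set (LaurentSeries (ZMod p)),
      Pool.Agent.Results.MP_db9079_lc.ProjectiveSets.AllProj p P →
      ∀ (L : Subfield (LaurentSeries (ZMod p))) (h : t p ∈ L) (Q : Set L),
        SameSentences P L h Q → factorialSeries p ∈ L := by
    intro P hP L h Q hL
    obtain ⟨φ, w, hw⟩ := Pool.Agent.Helper38.EQ.clauses hP
    have h1 := (hL (Pool.Agent.Helper38.EQ.fex (p + 1) φ)).2
      ((Pool.Agent.Helper38.EQ.sat_fex _ (p + 1) φ _).2 ⟨w, _, hw⟩)
    obtain ⟨w', c, h2⟩ := (Pool.Agent.Helper38.EQ.sat_fex _ (p + 1) φ _).1 h1
    have h3 := Pool.Agent.Helper38.EQ.series_mem h h2
    have h4 : factorialSeries p = c := h3.symm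
    rw [h4]
    exact c.2
  have hres := Pool.Agent.Results.MP_db9079_lc.ProjectiveSets.result p
  have one : ∀ P : Set (LaurentSeries (ZMod p)), ¬ LFTame p P →
      ∀ (L : Subfield (LaurentSeries (ZMod p))) (h : t p ∈ L) (Q : Set L),
        SameSentences P L h Q → factorialSeries p ∈ L := fun P hT => zero P ((hres.1 P).2 hT)
  refine ⟨one, ⟨t_mem p, factorialSeries_not_mem p⟩, fun P L h Q hLE hS => ?_,
    fun P hP hd => ⟨zero P (hres.2.2.1 P hP hd), fun L h Q hLE hS => ?_⟩⟩
  · by_contra hT
    exact factorialSeries_not_mem p (hLE (one P hT L h Q hS))
  · exact factorialSeries_not_mem p (hLE (zero P (hres.2.2.1 P hP hd) L h Q hS))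

end Pool.Agent.Results.MP_db9079_lc.OmittedSeries
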